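import Mathlib
import Pool.Agent.Lib.MP_3122b6_ag.Defs
import Pool.Agent.Lib.MP_3122b6_ag.CI

namespace Pool.Agent.Results.MP_3122b6_ag.CIPersists

open Pool.Agent.Lib.MP_3122b6_ag

/-- Q1: for a hypergraph on `[n]` whose edge set `E` (nonempty edges) is a clutter and `d ≥ 1`,
if `L_H^k(d)` is generated by a regular sequence then so is `L_H^k(d+1)`. -/
theorem result (k : Type*) [Field k] (n : ℕ) (E : Set (Finset (Fin n)))
    (hne : ∀ A ∈ E, A.Nonempty) (hclutter : ∀ A ∈ E, ∀ B ∈ E, A ⊆ B → A = B)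
    (d : ℕ) (hd : 1 ≤ d) :
    (∃ rs : List (MvPolynomial (Fin n × Fin d) k),
        RingTheory.Sequence.IsRegular (MvPolynomial (Fin n × Fin d) k) rs ∧
          Ideal.ofList rs = lssIdeal k E d) →
      ∃ rs : List (MvPolynomial (Fin n × Fin (d + 1)) k),
        RingTheory.Sequence.IsRegular (MvPolynomial (Fin n × Fin (d + 1)) k) rs ∧
          Ideal.ofList rs = lssIdeal k E (d + 1) :=
  ci_succ hd hne hclutter

end Pool.Agent.Results.MP_3122b6_ag.CIPersists
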